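import Mathlib
import Pool.Agent.W722.Stk.Defs
import Pool.Agent.W722.Stk.Bridge
import Pool.Agent.W722.St.Limit
set_option autoImplicit false
open Set Filter Topology MeasureTheory
open scoped ENNReal Manifold ContDiff
open Pool.Agent.W722.Stk

/-!
# The first Steklov eigenvalue with fixed metric on the boundary

Let `Ω` be a compact smooth manifold with boundary of dimension `d + 1 ≥ 3`, whose boundary `Σ` is
connected. The question is whether, for every Riemannian metric `g₀` on `Ω`, there are Riemannian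
metrics `g_ε` on `Ω` inducing the same metric on `Σ` as `g₀` such that
`σ₁(Ω, g_ε) |Σ| |(Ω, g_ε)|^((1-d)/(d+1)) → ∞` as `ε → 0`.

The answer is yes. The metrics can moreover be chosen equal to `g₀` in a neighbourhood (depending
on `ε`) of the boundary.

The definitions are in `Pool/Agent/W722/Stk/Defs.lean`:

* `RMetric d Ω`: the smooth Riemannian metrics on `Ω`;
* `bdry d Ω`: the boundary of `Ω`;
* `IsVolume g μ`: `μ` is the Riemannian volume measure of `g`, `√(det g_ij) dy` in every chart;
* `IsBdryVolume g ν`: `ν` is the Riemannian measure of the metric induced by `g` on the boundary,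
  seen as a measure on `Ω` carried by the boundary;
* `sigma k g μ ν`: the Steklov eigenvalue `σ_k` by its variational characterisation (the minimum
  over the `(k+1)`-dimensional spaces of smooth functions, on which `u ↦ ∫_Σ u²` is positive
  definite, of the maximum of the Rayleigh quotient `∫_Ω |du|²_g dμ / ∫_Σ u² dν`);
* `nsigma k g μ ν = σ_k |Ω|^((1-d)/(d+1)) |Σ|`, a number of `[0, ∞]`.
-/

namespace Pool.Agent.Results.MP_07ee5e_gt.FixedBoundaryMetric

/-- Let `Ω` be a compact (Hausdorff) smooth manifold of dimension `d + 1 ≥ 3` whose boundary is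
connected (and nonempty), `g0` a smooth Riemannian metric on `Ω`, `μ0` its volume measure and `ν`
the measure of the metric which it induces on the boundary. There are smooth Riemannian metrics
`g ε`, with volume measures `μ ε`, which are equal to `g0` in a neighbourhood of the boundary
(in particular `ν` is their boundary measure as well), such that
`σ₁(Ω, g ε) |(Ω, g ε)|^((1-d)/(d+1)) |Σ| → ∞` as `ε → 0`. -/
theorem result (d : ℕ) (hd : 2 ≤ d) (Ω : Type*) [TopologicalSpace Ω]
    [ChartedSpace (EuclideanHalfSpace (d + 1)) Ω] [IsManifold (𝓡∂ (d + 1)) ∞ Ω]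
    [CompactSpace Ω] [T2Space Ω] [MeasurableSpace Ω] [BorelSpace Ω]
    (hconn : IsConnected (bdry d Ω))
    (g0 : RMetric d Ω) (μ0 ν : Measure Ω) (hμ0 : IsVolume g0 μ0) (hν : IsBdryVolume g0 ν) :
    ∃ (g : ℝ → RMetric d Ω) (μ : ℝ → Measure Ω),
      (∀ ε : ℝ, 0 < ε → IsVolume (g ε) (μ ε) ∧ IsBdryVolume (g ε) ν ∧
        ∃ V : Set Ω, IsOpen V ∧ bdry d Ω ⊆ V ∧ ∀ x ∈ V, (g ε).inner x = g0.inner x) ∧
      Tendsto (fun ε : ℝ => nsigma 1 (g ε) (μ ε) ν) (𝓝[>] 0) (𝓝 ⊤) := by
  obtain ⟨g, μ, h, hlim⟩ := Pool.Agent.W722.St.final hd hconn (isVolume_toMan hμ0)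
    (isBdryVolume_toMan hν)
  refine ⟨fun ε => ofMan (g ε), μ, fun ε hε => ?_, ?_⟩
  · obtain ⟨h1, h2, V, hVo, hBV, hV⟩ := h ε hε
    exact ⟨isVolume_ofMan h1, isBdryVolume_ofMan h2, V, hVo, hBV,
      fun x hx => inner_eq_ofMan (hV x hx)⟩
  · refine tendsto_nhds_top_mono hlim (Eventually.of_forall fun ε => ?_)
    show Pool.Agent.W545.Man.nsigma 1 (g ε) (μ ε) ν ≤ nsigma 1 (ofMan (g ε)) (μ ε) ν
    unfold nsigma Pool.Agent.W545.Man.nsigma
    gcongr
    exact sigma_le 1 _ _ _

end Pool.Agent.Results.MP_07ee5e_gt.FixedBoundaryMetric
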